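import Pool.Agent.Q207.PG.Bs

/-!
# There is no sequence of amorphous sets that separates all powers

In every model of Zermelo set theory (so in every model of ZF): for every family of amorphous sets
indexed by the natural numbers there is an `n` such that the `n`-th power of the power set of the
`n`-th set is dually Dedekind infinite or its `(n + 1)`-st power is dually Dedekind finite.
-/

namespace Pool.Agent.Results.MP_92320c_lc.NoSequence

open FirstOrder FirstOrder.Language
open Pool.Agent.Helper672.Plain (LSet Mem Zermelo)
open Pool.Agent.H310Cards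
open Pool.Agent.H310NAS (IsAmorphous)
open Pool.Agent.Q207.PGDefs

universe u

theorem result (M : Type u) [LSet.Structure M] [Zermelo M] (w A : M) (hw : IsOmega w)
    (hA : ∀ n, Mem n w → ∃! x, App A n x)
    (hAm : ∀ n x, Mem n w → App A n x → IsAmorphous x) :
    ∃ n m a p X Y, Mem n w ∧ IsAdj m n n ∧ App A n a ∧ IsPow p a ∧ IsFunSet X n p ∧
      IsFunSet Y m p ∧ (¬ IsDDF X ∨ IsDDF Y) :=
  Pool.Agent.Q207.PG.family hw hA hAm

end Pool.Agent.Results.MP_92320c_lc.NoSequence
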